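import Pool.Agent.H1.UZ.TarPC

/-!
MP_f6fd33_lc, module PTU: the translation of uniformization.
-/

open Ordinal Order Set
open scoped ZFSet

namespace SE.UZ

open SF PSR

/-- PTU: the translation of uniformization -/
theorem pf_PTU (hUE : T_UE) (hUF : T_UF) (hPTX : T_PTX) (hPTZ : T_PTZ) : T_PTU := by
  intro M hM n hU
  obtain ⟨e, he, hE⟩ := hUE M hM
  obtain ⟨-, -, h3, h4, h5⟩ := hPTX
  have hTe : Th e := h3 e hE
  obtain ⟨hTθ, hpr⟩ := h4 e e hTe hTe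
  obtain ⟨h6, h7⟩ := h5 M hM
  have hMθ : M (thp e e) := h6 e e he he
  obtain ⟨u1, u2⟩ := hUF e hE
  obtain ⟨u3, u4⟩ := u2 M hM he
  obtain ⟨forth, back⟩ := hPTZ M hM e he hE n (thp e e) hMθ hTθ
  have hinj : ∀ x y : ℕ → ℕ, hx e x = hx e y → x = y := by
    intro x y h
    funext k
    have := congrArg (fun v => app v (nS k)) h
    simp only [(u1 x).2 k, (u1 y).2 k] at this
    exact hE.inj _ _ this
  intro a ha
  obtain ⟨c, hc, hcR, hcS⟩ := forth a ha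
  obtain ⟨b, hb, hbR, b1, b2, b3⟩ := hU c hc hcR
  obtain ⟨b', hb', hbS⟩ := back b hb hbR
  have key : ∀ x y : ℕ → ℕ, M (gr x) → M (gr y) →
      (PUF.Pi M n b' (pr x y) ↔ ¬ SgH M n b (prl (hx e x) (hx e y))) ∧
      (PUF.Pi M n a (pr x y) ↔ ¬ SgH M n c (prl (hx e x) (hx e y))) := by
    intro x y hx' hy'
    have hm := h7 x y hx' hy'
    constructor
    · rw [← hpr, hbS _ hm]
      rfl
    · rw [← hpr, hcS _ hm]
      rfl
  refine ⟨b', hb', ?_, ?_, ?_⟩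
  · intro x y hx' hy' h
    rw [(key x y hx' hy').1] at h
    rw [(key x y hx' hy').2]
    exact b1 _ _ (u3 x hx') (u1 x).1 (u3 y hy') (u1 y).1 h
  · intro x y z hx' hy' hz' h h'
    rw [(key x y hx' hy').1] at h
    rw [(key x z hx' hz').1] at h'
    exact hinj _ _ (b2 _ _ _ (u3 x hx') (u1 x).1 (u3 y hy') (u1 y).1 (u3 z hz') (u1 z).1 h h')
  · intro x y hx' hy' h
    rw [(key x y hx' hy').2] at h
    obtain ⟨z, hz, hzR, hzb⟩ := b3 _ _ (u3 x hx') (u1 x).1 (u3 y hy') (u1 y).1 h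
    obtain ⟨w, hw, rfl⟩ := u4 z hz hzR
    exact ⟨w, hw, (key x w hx' hw).1.2 hzb⟩

end SE.UZ
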